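import Pool.Agent.Lib.MP_0b6b0e_gt.ZB.H53.NCA

/-!
Module FK of the classification for MP_0b6b0e_gt: equal central hyperplane sections give the chord
equation (layer cake, and the modules F1 and F2).
-/

set_option autoImplicit false

open Set Filter Topology MeasureTheory

open scoped InnerProductSpace Pointwise

namespace Pool.Agent.Lib.MP_0b6b0e_gt.ZB.H53

open Pool.Agent.Lib.MP_0b6b0e_gt.ZB

section

variable {W : Type*} [NormedAddCommGroup W] [InnerProductSpace ℝ W]

theorem isG_nonneg {P : W → ℝ} (hP : IsG P) (x : W) : 0 ≤ P x := by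
  obtain ⟨c, hc, hl⟩ := hP.lower
  exact (mul_nonneg hc.le (norm_nonneg x)).trans (hl x)

theorem isG_le_zero {P : W → ℝ} (hP : IsG P) (x : W) : P x ≤ 0 ↔ x = 0 := by
  obtain ⟨c, hc, hl⟩ := hP.lower
  constructor
  · intro h
    have h1 := (hl x).trans h
    have h2 : ‖x‖ ≤ 0 := by
      by_contra h3
      push Not at h3
      have := mul_pos hc h3
      linarith
    exact norm_le_zero_iff.mp h2
  · rintro rfl
    have := hP.smul 0 le_rfl 0
    rw [zero_smul, zero_mul] at this
    exact this.le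

/-- The restriction of a gauge function to a subspace. -/
theorem isG_restrict {P : W → ℝ} (hP : IsG P) (S : Submodule ℝ W) :
    IsG (fun y : S => P (y : W)) := by
  obtain ⟨c, hc, hl⟩ := hP.lower
  obtain ⟨C, hC, hu⟩ := hP.upper
  exact ⟨fun x y => hP.add x y, fun t ht x => hP.smul t ht x, ⟨c, hc, fun x => hl x⟩,
    ⟨C, hC, fun x => hu x⟩⟩

variable [FiniteDimensional ℝ W] [MeasurableSpace W] [BorelSpace W]

theorem integrable_exp_neg_sq {P : W → ℝ} (hP : IsG P) :
    Integrable (fun y : W => Real.exp (-(P y) ^ 2)) := by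
  obtain ⟨c, hc, hl⟩ := hP.lower
  have hc2 : 0 < ((c ^ 2 : ℝ) : ℂ).re := by
    rw [Complex.ofReal_re]
    positivity
  have h1 := (GaussianFourier.integrable_cexp_neg_mul_sq_norm_add hc2 0 (0 : W)).norm
  refine Integrable.mono' h1 ?_ (Eventually.of_forall fun y => ?_)
  · have := isG_continuous hP
    exact (by fun_prop : Continuous fun y : W => Real.exp (-(P y) ^ 2)).aestronglyMeasurable
  · rw [Complex.norm_exp, Real.norm_eq_abs, abs_of_pos (Real.exp_pos _), Real.exp_le_exp]
    have h2 : (-((c ^ 2 : ℝ) : ℂ) * (‖y‖ : ℂ) ^ 2 + 0 * ((⟪(0 : W), y⟫_ℝ : ℝ) : ℂ)).re =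
        -(c ^ 2 * ‖y‖ ^ 2) := by
      rw [zero_mul, add_zero, ← Complex.ofReal_pow, ← Complex.ofReal_neg, ← Complex.ofReal_mul,
        Complex.ofReal_re]
      ring
    rw [h2, neg_le_neg_iff, ← mul_pow]
    exact pow_le_pow_left₀ (by positivity) (hl y) 2

theorem volume_le_eq {P p : W → ℝ} (hP : IsG P) (hp : IsG p)
    (h : (volume : Measure W) {y | p y ≤ 1} = (volume : Measure W) {y | P y ≤ 1}) {r : ℝ}
    (hr : 0 ≤ r) : (volume : Measure W) {y | p y ≤ r} = (volume : Measure W) {y | P y ≤ r} := by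
  rcases hr.eq_or_lt with h0 | h0
  · subst h0
    congr 1
    ext y
    rw [mem_setOf_eq, mem_setOf_eq, isG_le_zero hP, isG_le_zero hp]
  · have key : ∀ {Q : W → ℝ}, IsG Q → {y | Q y ≤ r} = r • {y | Q y ≤ 1} := by
      intro Q hQ
      ext y
      rw [mem_smul_set_iff_inv_smul_mem₀ h0.ne', mem_setOf_eq, mem_setOf_eq,
        hQ.smul _ (inv_nonneg.mpr hr), inv_mul_le_iff₀ h0, mul_one]
    rw [key hP, key hp, Measure.addHaar_smul, Measure.addHaar_smul, h]

theorem integral_exp_neg_sq_eq {P p : W → ℝ} (hP : IsG P) (hp : IsG p)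
    (h : (volume : Measure W) {y | p y ≤ 1} = (volume : Measure W) {y | P y ≤ 1}) :
    ∫ y : W, Real.exp (-(p y) ^ 2) = ∫ y : W, Real.exp (-(P y) ^ 2) := by
  have hnn : ∀ Q : W → ℝ, 0 ≤ᵐ[volume] fun y : W => Real.exp (-(Q y) ^ 2) := fun Q =>
    Eventually.of_forall fun y => (Real.exp_pos _).le
  rw [integral_eq_lintegral_of_nonneg_ae (hnn p) (integrable_exp_neg_sq hp).aestronglyMeasurable,
    integral_eq_lintegral_of_nonneg_ae (hnn P) (integrable_exp_neg_sq hP).aestronglyMeasurable,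
    lintegral_eq_lintegral_meas_le _ (hnn p) (integrable_exp_neg_sq hp).aemeasurable,
    lintegral_eq_lintegral_meas_le _ (hnn P) (integrable_exp_neg_sq hP).aemeasurable]
  congr 1
  refine setLIntegral_congr_fun measurableSet_Ioi fun t ht => ?_
  have ht0 : 0 < t := ht
  rcases le_or_gt t 1 with ht1 | ht1
  · have hlog : 0 ≤ -Real.log t := by
      have := Real.log_nonpos ht0.le ht1
      linarith
    have key : ∀ {Q : W → ℝ}, IsG Q →
        {y : W | t ≤ Real.exp (-(Q y) ^ 2)} = {y | Q y ≤ Real.sqrt (-Real.log t)} := by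
      intro Q hQ
      ext y
      rw [mem_setOf_eq, mem_setOf_eq, ← Real.log_le_iff_le_exp ht0,
        Real.le_sqrt (isG_nonneg hQ y) hlog]
      constructor <;> intro h <;> linarith
    simp only [key hP, key hp]
    exact volume_le_eq hP hp h (Real.sqrt_nonneg _)
  · have key : ∀ Q : W → ℝ, {y : W | t ≤ Real.exp (-(Q y) ^ 2)} = ∅ := by
      intro Q
      ext y
      rw [mem_setOf_eq]
      refine iff_of_false ?_ (notMem_empty y)
      have : Real.exp (-(Q y) ^ 2) ≤ 1 := by
        rw [Real.exp_le_one_iff]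
        have := sq_nonneg (Q y)
        linarith
      intro h
      linarith
    simp only [key]

end

/-- Module FK. -/
theorem FK (h1 : F1Statement) (h2 : F2Statement) : FKStatement := by
  intro V _ _ _ _ _ i hi hV P p hP hp hvol
  refine h2 V i hi hV P p hP hp (h1 V _ (by omega) ?_ ?_ ?_)
  · have := isG_continuous hP
    have := isG_continuous hp
    fun_prop
  · obtain ⟨c, hc, hl⟩ := hP.lower
    obtain ⟨d, hd, hl'⟩ := hp.lower
    refine ⟨min c d ^ 2, 2, by positivity, fun x => ?_⟩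
    have key : ∀ {Q : V → ℝ} {b : ℝ}, 0 < b → min c d ≤ b → (∀ x, b * ‖x‖ ≤ Q x) →
        Real.exp (-(Q x) ^ 2) ≤ Real.exp (-(min c d ^ 2) * ‖x‖ ^ 2) := by
      intro Q b hb hbm hQ
      rw [Real.exp_le_exp, neg_mul, neg_le_neg_iff, ← mul_pow]
      refine pow_le_pow_left₀ (by positivity) ?_ 2
      exact (mul_le_mul_of_nonneg_right hbm (norm_nonneg x)).trans (hQ x)
    have e1 := key hc (min_le_left _ _) hl
    have e2 := key hd (min_le_right _ _) hl'
    have e3 := Real.exp_pos (-(P x) ^ 2)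
    have e4 := Real.exp_pos (-(p x) ^ 2)
    rw [abs_le]
    constructor <;> linarith
  · intro u hu
    have e1 := integral_exp_neg_sq_eq (isG_restrict hP (ℝ ∙ u)ᗮ) (isG_restrict hp (ℝ ∙ u)ᗮ)
      (hvol u hu)
    rw [integral_sub (integrable_exp_neg_sq (isG_restrict hp (ℝ ∙ u)ᗮ))
      (integrable_exp_neg_sq (isG_restrict hP (ℝ ∙ u)ᗮ)), e1, sub_self]

end Pool.Agent.Lib.MP_0b6b0e_gt.ZB.H53
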