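import Pool.Agent.Lib.MP_0b6b0e_gt.ZB.Defs

/-!
Module NCA of the classification for MP_0b6b0e_gt: the property `NoCommon` is open.
-/

set_option autoImplicit false

open Set Filter Topology

namespace Pool.Agent.Lib.MP_0b6b0e_gt.ZB.H53

open Pool.Agent.Lib.MP_0b6b0e_gt.ZB

section

variable {E : Type*} [NormedAddCommGroup E] [InnerProductSpace ℝ E]

/-- A gauge function is continuous. -/
theorem isG_continuous {P : E → ℝ} (hP : IsG P) : Continuous P := by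
  obtain ⟨C, hC, hu⟩ := hP.upper
  have h1 : ∀ x y, P x - P y ≤ C * ‖x - y‖ := fun x y => by
    have h2 := hP.add (x - y) y
    have h3 := hu (x - y)
    rw [sub_add_cancel] at h2
    linarith
  have h4 : LipschitzWith (Real.toNNReal C) P := by
    refine LipschitzWith.of_dist_le_mul fun x y => ?_
    rw [Real.dist_eq, dist_eq_norm, Real.coe_toNNReal C hC.le, abs_le]
    have h5 := h1 x y
    have h6 := h1 y x
    rw [norm_sub_rev] at h6
    constructor <;> linarith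
  exact h4.continuous

/-- If `NoCommon` fails, it fails at a unit vector. -/
theorem exists_unit_of_not_noCommon {P : E → ℝ} (hP : IsG P) (h : ¬ NoCommon P) :
    ∃ x : E, ‖x‖ = 1 ∧ ∃ l : E →L[ℝ] ℝ, (∀ y, l y ≤ P y) ∧ l x = P x ∧ (∀ y, l y ≤ P (-y)) ∧
      l x = P (-x) := by
  unfold NoCommon at h
  push Not at h
  obtain ⟨x, hx, l, h1, h2, h3, h4⟩ := h
  have hx' : ‖x‖ ≠ 0 := norm_ne_zero_iff.mpr hx
  have hpos : 0 ≤ ‖x‖⁻¹ := inv_nonneg.mpr (norm_nonneg x)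
  refine ⟨‖x‖⁻¹ • x, ?_, l, h1, ?_, h3, ?_⟩
  · rw [norm_smul, norm_inv, norm_norm, inv_mul_cancel₀ hx']
  · rw [hP.smul _ hpos, map_smul, smul_eq_mul, h2]
  · rw [← smul_neg, hP.smul _ hpos, map_smul, smul_eq_mul, h4]

end

/-- Module NCA. -/
theorem NCA : NCAStatement := by
  intro n P hP hN
  by_contra hcon
  push Not at hcon
  obtain ⟨C, hC, hu⟩ := hP.upper
  have hk : ∀ k : ℕ, ∃ P' : EuclideanSpace ℝ (Fin n) → ℝ, IsG P' ∧
      (∀ x, |P' x - P x| ≤ (1 / ((k : ℝ) + 1)) * ‖x‖) ∧ ¬ NoCommon P' := fun k =>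
    hcon (1 / ((k : ℝ) + 1)) Nat.one_div_pos_of_nat
  choose Q hQ hd hQN using hk
  have hex : ∀ k : ℕ, ∃ z : EuclideanSpace ℝ (Fin n) × (EuclideanSpace ℝ (Fin n) →L[ℝ] ℝ),
      ‖z.1‖ = 1 ∧ (∀ y, z.2 y ≤ Q k y) ∧ z.2 z.1 = Q k z.1 ∧ (∀ y, z.2 y ≤ Q k (-y)) ∧
        z.2 z.1 = Q k (-z.1) := fun k => by
    obtain ⟨x, hx, l, hl⟩ := exists_unit_of_not_noCommon (hQ k) (hQN k)
    exact ⟨(x, l), hx, hl⟩
  choose z hz1 hz2 hz3 hz4 hz5 using hex
  have hle1 : ∀ k : ℕ, 1 / ((k : ℝ) + 1) ≤ 1 := fun k => by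
    rw [div_le_one (by positivity)]
    have : (0 : ℝ) ≤ k := Nat.cast_nonneg k
    linarith
  have hup : ∀ (k : ℕ) (y : EuclideanSpace ℝ (Fin n)), Q k y ≤ (C + 1) * ‖y‖ := fun k y => by
    have h1 := (abs_le.mp (hd k y)).2
    have h2 := hu y
    have h3 := mul_le_mul_of_nonneg_right (hle1 k) (norm_nonneg y)
    nlinarith
  have hmem : ∀ k : ℕ, z k ∈ (Metric.sphere (0 : EuclideanSpace ℝ (Fin n)) 1) ×ˢ
      (Metric.closedBall (0 : EuclideanSpace ℝ (Fin n) →L[ℝ] ℝ) (C + 1)) := fun k => by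
    refine Set.mem_prod.mpr ⟨?_, ?_⟩
    · rw [mem_sphere_zero_iff_norm]
      exact hz1 k
    · rw [mem_closedBall_zero_iff]
      refine ContinuousLinearMap.opNorm_le_bound _ (by linarith) fun y => ?_
      rw [Real.norm_eq_abs, abs_le]
      have h1 := (hz2 k y).trans (hup k y)
      have h2 := (hz2 k (-y)).trans (hup k (-y))
      rw [map_neg, norm_neg] at h2
      constructor <;> linarith
  have hcomp : IsCompact ((Metric.sphere (0 : EuclideanSpace ℝ (Fin n)) 1) ×ˢ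
      (Metric.closedBall (0 : EuclideanSpace ℝ (Fin n) →L[ℝ] ℝ) (C + 1))) :=
    (isCompact_sphere _ _).prod (isCompact_closedBall _ _)
  obtain ⟨w, hw, φ, hφ, hlim⟩ := hcomp.tendsto_subseq hmem
  have hPc := isG_continuous hP
  have hw1 : ‖w.1‖ = 1 := mem_sphere_zero_iff_norm.mp (Set.mem_prod.mp hw).1
  have hl1 : Tendsto (fun k => (z (φ k)).1) atTop (𝓝 w.1) :=
    (continuous_fst.tendsto w).comp hlim
  have hl2 : Tendsto (fun k => (z (φ k)).2) atTop (𝓝 w.2) :=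
    (continuous_snd.tendsto w).comp hlim
  have hev : ∀ y : EuclideanSpace ℝ (Fin n), Tendsto (fun k => (z (φ k)).2 y) atTop (𝓝 (w.2 y)) :=
    fun y => ((ContinuousLinearMap.apply ℝ ℝ y).continuous.tendsto w.2).comp hl2
  have hev1 : Tendsto (fun k => (z (φ k)).2 (z (φ k)).1) atTop (𝓝 (w.2 w.1)) :=
    (isBoundedBilinearMap_apply.continuous.tendsto (w.2, w.1)).comp (hl2.prodMk_nhds hl1)
  have hone : Tendsto (fun k : ℕ => 1 / (((φ k : ℕ) : ℝ) + 1)) atTop (𝓝 0) :=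
    tendsto_one_div_add_atTop_nhds_zero_nat.comp hφ.tendsto_atTop
  -- convergence of the values of `Q`
  have hQlim : ∀ (u : ℕ → EuclideanSpace ℝ (Fin n)) (v : EuclideanSpace ℝ (Fin n)),
      Tendsto u atTop (𝓝 v) → Tendsto (fun k => Q (φ k) (u k)) atTop (𝓝 (P v)) := by
    intro u v hu'
    have h1 : Tendsto (fun k => P (u k)) atTop (𝓝 (P v)) := (hPc.tendsto v).comp hu'
    have h2 : Tendsto (fun k => Q (φ k) (u k) - P (u k)) atTop (𝓝 0) := by
      have h3 : Tendsto (fun k : ℕ => (1 / (((φ k : ℕ) : ℝ) + 1)) * ‖u k‖) atTop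
          (𝓝 (0 * ‖v‖)) := hone.mul hu'.norm
      rw [zero_mul] at h3
      exact squeeze_zero_norm (fun k => by rw [Real.norm_eq_abs]; exact hd (φ k) (u k)) h3
    have h4 := h2.add h1
    simpa using h4
  have hneg : Tendsto (fun k => -(z (φ k)).1) atTop (𝓝 (-w.1)) := hl1.neg
  refine hN w.1 (norm_ne_zero_iff.mp (by rw [hw1]; exact one_ne_zero)) w.2 (fun y => ?_) ?_
    (fun y => ?_) ?_
  · exact le_of_tendsto_of_tendsto' (hev y) (hQlim (fun _ => y) y tendsto_const_nhds)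
      fun k => hz2 (φ k) y
  · refine tendsto_nhds_unique hev1 ?_
    exact (hQlim _ _ hl1).congr fun k => (hz3 (φ k)).symm
  · exact le_of_tendsto_of_tendsto' (hev y) (hQlim (fun _ => -y) (-y) tendsto_const_nhds)
      fun k => hz4 (φ k) y
  · refine tendsto_nhds_unique hev1 ?_
    exact (hQlim _ _ hneg).congr fun k => (hz5 (φ k)).symm

end Pool.Agent.Lib.MP_0b6b0e_gt.ZB.H53
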